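import Mathlib

namespace Pool.Agent.Results.MP_6df474_gt.Q1

open Set MeasureTheory Filter Topology

/-- Euclidean `n`-space. -/
abbrev E (n : ℕ) : Type := EuclideanSpace ℝ (Fin n)

/-- Half the surface area of a convex body in three-space. -/
noncomputable def V2 (K : Set (E 3)) : ℝ := (μHE[2] (frontier K)).toReal / 2

/-- The section of `K` by the `i`-th coordinate plane, in the two remaining coordinates. -/
def sec (K : Set (E 3)) (i : Fin 3) : Set (E 2) :=
  {y | WithLp.toLp 2 (Fin.insertNth (α := fun _ => ℝ) i 0 y) ∈ K}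

/-- Half the perimeter of that section. -/
noncomputable def ell (K : Set (E 3)) (i : Fin 3) : ℝ := (μH[1] (frontier (sec K i))).toReal / 2

def S (n : ℕ) : Set (E n) := {x | (∀ i, 0 ≤ x i) ∧ ∑ i, x i ≤ 1}

lemma cl (n) : IsClosed (S n) := by
  simp only [S, setOf_and, setOf_forall]
  exact (isClosed_iInter fun i => isClosed_le (by fun_prop) (by fun_prop)).inter
    (isClosed_le (by fun_prop) (by fun_prop))

lemma int {n} [NeZero n] (x : E n) : x ∈ interior (S n) ↔ (∀ i, 0 < x i) ∧ ∑ i, x i < 1 := by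
  constructor
  · intro h
    have k (d : E n) : ∃ t : ℝ, 0 < t ∧ x + t • d ∈ S n := by
      have c : ContinuousAt (fun t : ℝ => x + t • d) 0 := by fun_prop
      have := mem_nhdsWithin_of_mem_nhds (t := Ioi (0 : ℝ))
        (c.preimage_mem_nhds (by simpa using mem_interior_iff_mem_nhds.1 h))
      obtain ⟨t, a, b⟩ := Filter.nonempty_of_mem (inter_mem self_mem_nhdsWithin this)
      exact ⟨t, a, b⟩
    refine ⟨fun i => ?_, ?_⟩
    · obtain ⟨t, a, b⟩ := k (-EuclideanSpace.single i 1)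
      have := b.1 i
      simp at this; linarith
    · obtain ⟨t, a, b⟩ := k (EuclideanSpace.single 0 1)
      have := b.2
      simp [Finset.sum_add_distrib, ← Finset.mul_sum] at this; linarith
  · intro h
    refine interior_maximal (t := {x : E n | (∀ i, 0 < x i) ∧ ∑ i, x i < 1})
      (fun y h => And.intro (fun i => (h.1 i).le) h.2.le) ?_ h
    simp only [setOf_and, setOf_forall]
    exact (isOpen_iInter_of_finite fun i => isOpen_lt (by fun_prop) (by fun_prop)).inter
      (isOpen_lt (by fun_prop) (by fun_prop))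

lemma fr {n} [NeZero n] (x : E n) : x ∈ frontier (S n) ↔
    x ∈ S n ∧ ((∃ i, x i = 0) ∨ ∑ i, x i = 1) := by
  rw [(cl _).frontier_eq, mem_diff, int]
  refine and_congr_right fun h => ?_
  rw [not_and_or, not_forall, not_lt]
  exact or_congr (exists_congr fun i => ⟨fun a => le_antisymm (not_lt.1 a) (h.1 i), fun a => by simp [a]⟩)
    ⟨le_antisymm h.2, fun a => a.ge⟩

lemma per : μH[1] (frontier (S 2)) = ENNReal.ofReal (2 + √2) := by
  have e : frontier (S 2) = (segment ℝ (0 : E 2) !₂[1, 0] ∪ segment ℝ 0 !₂[0, 1]) ∪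
      segment ℝ !₂[1, 0] !₂[0, 1] := by
    ext x
    rw [fr]
    simp only [S, mem_union, segment_eq_image, mem_image, mem_setOf_eq, Fin.sum_univ_two,
      Fin.forall_fin_two, Fin.exists_fin_two, mem_Icc]
    constructor
    · rintro ⟨⟨⟨a, b⟩, c⟩, (d | d) | d⟩
      · exact .inl (.inr ⟨x 1, ⟨b, by linarith⟩, by ext i; fin_cases i <;> simp [d]⟩)
      · exact .inl (.inl ⟨x 0, ⟨a, by linarith⟩, by ext i; fin_cases i <;> simp [d]⟩)
      · exact .inr ⟨x 1, ⟨b, by linarith⟩, by ext i; fin_cases i <;> simp; linarith⟩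
    · rintro ((⟨t, ⟨a, b⟩, rfl⟩ | ⟨t, ⟨a, b⟩, rfl⟩) | ⟨t, ⟨a, b⟩, rfl⟩) <;> simp [a, b]
  have m (a b : E 2) : NullMeasurableSet (segment ℝ a b) μH[1] := by
    rw [segment_eq_image]
    exact (isCompact_Icc.image (by fun_prop)).measurableSet.nullMeasurableSet
  have := Measure.nullSingletonClass_hausdorff (E 2) one_pos
  rw [e, measure_union₀ (m _ _), measure_union₀ (m _ _)]
  · simp only [hausdorffMeasure_segment, edist_dist, EuclideanSpace.dist_eq, Fin.sum_univ_two]
    rw [← ENNReal.ofReal_add (by positivity) (by positivity),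
      ← ENNReal.ofReal_add (by positivity) (by positivity)]
    simp [Real.dist_eq]; norm_num
  · refine measure_mono_null (t := {0}) ?_ (measure_singleton _)
    simp only [segment_eq_image]
    rintro _ ⟨⟨t, -, rfl⟩, s, -, h⟩
    have := congrArg (· 0) h
    simp at this; simp [← this]
  · refine measure_mono_null (t := {!₂[1, 0], !₂[0, 1]}) ?_ ((toFinite _).measure_zero _)
    simp only [segment_eq_image]
    rintro _ ⟨⟨t, -, h⟩ | ⟨t, -, h⟩, s, -, rfl⟩
    · have := congrArg (· 1) h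
      simp at this; simp [← this]
    · have := congrArg (· 0) h
      simp at this
      obtain rfl : s = 1 := by linarith
      simp

lemma ar : volume (S 2) = ENNReal.ofReal (1 / 2) := by
  have m : MeasurableSet {p : ℝ × ℝ | (0 ≤ p.1 ∧ 0 ≤ p.2) ∧ p.1 + p.2 ≤ 1} := by measurability
  have := ((volume_preserving_finTwoArrow ℝ).comp (PiLp.volume_preserving_ofLp (Fin 2))).measure_preimage
    m.nullMeasurableSet
  refine Eq.trans (by congr 1; ext x; simp [S]) (this.trans ?_)
  rw [Measure.volume_eq_prod, Measure.prod_apply m]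
  have e : ∫ x in (0 : ℝ)..1, (1 - x) = 1 / 2 := by
    rw [intervalIntegral.integral_sub (by simp) (by simp)]; simp; norm_num
  rw [← e, intervalIntegral.integral_of_le zero_le_one, ← integral_Icc_eq_integral_Ioc,
    ofReal_integral_eq_lintegral_ofReal ((by fun_prop : Continuous _).integrableOn_Icc)
      (ae_restrict_of_forall_mem measurableSet_Icc fun x h => sub_nonneg.2 h.2),
    ← lintegral_indicator measurableSet_Icc]
  congr 1; funext x
  by_cases h : 0 ≤ x
  · have : Prod.mk x ⁻¹' {p : ℝ × ℝ | (0 ≤ p.1 ∧ 0 ≤ p.2) ∧ p.1 + p.2 ≤ 1} = Icc 0 (1 - x) := by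
      ext y; simp [h, le_sub_iff_add_le']
    rw [this]
    by_cases g : x ≤ 1
    · simp [h, g]
    · simp [g, (not_le.1 g).le]
  · simp [h]

noncomputable def L (a b : E 3) : E 2 →ₗ[ℝ] E 3 where
  toFun y := y 0 • a + y 1 • b
  map_add' x y := by simp [add_smul]; abel
  map_smul' c x := by simp [smul_smul]

lemma face (a b p : E 3) {c : ℝ} (c0 : 0 ≤ c) (h : ‖a‖ ^ 2 * ‖b‖ ^ 2 - inner ℝ a b ^ 2 = c ^ 2) :
    μHE[2] ((fun y => p + L a b y) '' S 2) = ENNReal.ofReal (c / 2) := by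
  have := (L a b).euclideanHausdorffMeasure_image_eq_normDet_mul_volume (S 2)
  have d := (L a b).normDet_sq_eq_det_gram (EuclideanSpace.basisFun (Fin 2) ℝ)
  have e : (L a b).normDet = c := by
    rw [← sq_eq_sq₀ (L a b).normDet_nonneg c0, ← h]
    simpa [Matrix.det_fin_two, L, real_inner_comm, sq] using d
  rw [finrank_euclideanSpace_fin, e, ar, ← ENNReal.ofReal_mul c0] at this
  rw [← image_image (p + ·), (isometry_add_left p).euclideanHausdorffMeasure_image, this, mul_one_div]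

theorem result : ∃ K : Set (E 3), IsCompact K ∧ Convex ℝ K ∧ (interior K).Nonempty ∧
    (∀ i, (interior (sec K i)).Nonempty) ∧ μHE[2] (frontier K) < ⊤ ∧
    V2 K ^ 2 < 1 / 16 * (∑ i, ell K i ^ 2) ^ 2 - 1 / 8 * ∑ i, ell K i ^ 4 := by
  have s (i) : sec (S 3) i = S 2 := by
    ext y; simp [sec, S, Fin.sum_univ_succAbove _ i, Fin.forall_iff_succAbove i]
  have r2 := Real.sq_sqrt (show (0 : ℝ) ≤ 2 by norm_num)
  have r3 := Real.sq_sqrt (show (0 : ℝ) ≤ 3 by norm_num)
  have p2 := Real.sqrt_nonneg 2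
  have p3 := Real.sqrt_nonneg 3
  have A : μHE[2] (frontier (S 3)) ≤ ENNReal.ofReal (1 / 2 + 1 / 2 + 1 / 2 + √3 / 2) := by
    rw [ENNReal.ofReal_add (by positivity) (by positivity), ENNReal.ofReal_add (by positivity) (by positivity),
      ENNReal.ofReal_add (by positivity) (by positivity)]
    have n (a b : E 3) : ‖a‖ ^ 2 * ‖b‖ ^ 2 - inner ℝ a b ^ 2 = (a 0 ^ 2 + a 1 ^ 2 + a 2 ^ 2) *
        (b 0 ^ 2 + b 1 ^ 2 + b 2 ^ 2) - (b 0 * a 0 + b 1 * a 1 + b 2 * a 2) ^ 2 := by
      simp [EuclideanSpace.norm_sq_eq, Fin.sum_univ_three, PiLp.inner_apply]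
    nth_rw 1 [← face !₂[0, 1, 0] !₂[0, 0, 1] 0 zero_le_one (by simp [n])]
    nth_rw 1 [← face !₂[1, 0, 0] !₂[0, 0, 1] 0 zero_le_one (by simp [n])]
    rw [← face !₂[1, 0, 0] !₂[0, 1, 0] 0 zero_le_one (by simp [n]),
      ← face !₂[1, 0, -1] !₂[0, 1, -1] !₂[0, 0, 1] p3 (by simp [n]; norm_num)]
    refine le_trans (measure_mono fun x hx => ?_) ((measure_union_le _ _).trans (add_le_add_left
      ((measure_union_le _ _).trans (add_le_add_left (measure_union_le _ _) _)) _))
    obtain ⟨⟨a, b⟩, c⟩ := (fr x).1 hx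
    simp only [Fin.sum_univ_three] at b c
    have a0 := a 0; have a1 := a 1; have a2 := a 2
    have t (u v : ℝ) (p : 0 ≤ u) (q : 0 ≤ v) (r : u + v ≤ 1) : !₂[u, v] ∈ S 2 := by simp [S, p, q, r]
    rcases c with ⟨i, c⟩ | c
    · fin_cases i <;> simp at c
      · exact .inl (.inl (.inl ⟨_, t _ _ a1 a2 (by linarith), by ext j; fin_cases j <;> simp [L, c]⟩))
      · exact .inl (.inl (.inr ⟨_, t _ _ a0 a2 (by linarith), by ext j; fin_cases j <;> simp [L, c]⟩))
      · exact .inl (.inr ⟨_, t _ _ a0 a1 (by linarith), by ext j; fin_cases j <;> simp [L, c]⟩)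
    · exact .inr ⟨_, t _ _ a0 a1 (by linarith), by ext j; fin_cases j <;> simp [L]; linarith⟩
  refine ⟨S 3, Metric.isCompact_of_isClosed_isBounded (cl 3) ?_, ?_,
    ⟨!₂[1 / 4, 1 / 4, 1 / 4], (int _).2 ⟨fun i => by fin_cases i <;> simp, by simp [Fin.sum_univ_three]; norm_num⟩⟩,
    fun i => ⟨!₂[1 / 4, 1 / 4], s i ▸ (int _).2 ⟨fun i => by fin_cases i <;> simp, by simp; norm_num⟩⟩,
    A.trans_lt ENNReal.ofReal_lt_top, ?_⟩
  · refine (Metric.isBounded_closedBall (x := 0) (r := 1)).subset fun x ⟨a, b⟩ => ?_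
    rw [mem_closedBall_zero_iff, EuclideanSpace.norm_eq, Real.sqrt_le_left zero_le_one]
    simp only [Fin.sum_univ_three, Real.norm_eq_abs, sq_abs] at *
    nlinarith [a 0, a 1, a 2, mul_nonneg (a 0) (a 1), mul_nonneg (a 0) (a 2), mul_nonneg (a 1) (a 2)]
  · intro x ⟨a, b⟩ y ⟨c, d⟩ u v hu hv h
    refine ⟨fun i => by simpa using add_nonneg (mul_nonneg hu (a i)) (mul_nonneg hv (c i)), ?_⟩
    simp [Finset.sum_add_distrib, ← Finset.mul_sum]
    nlinarith
  · have a := ENNReal.toReal_le_of_le_ofReal (by positivity) A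
    simp only [ell, s, per, V2, ENNReal.toReal_ofReal (show 0 ≤ 2 + √2 by positivity), Finset.sum_const,
      Finset.card_univ, Fintype.card_fin, nsmul_eq_mul]
    have b := ENNReal.toReal_nonneg (a := μHE[2] (frontier (S 3)))
    have c2 : 1.41 ≤ √2 := by nlinarith
    have c3 : √3 ≤ 1.74 := by nlinarith
    have e : ((2 + √2) / 2) ^ 2 = 3 / 2 + √2 := by nlinarith
    rw [show ((2 + √2) / 2) ^ 4 = (((2 + √2) / 2) ^ 2) ^ 2 by ring, e]
    push_cast
    nlinarith

end Pool.Agent.Results.MP_6df474_gt.Q1
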